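import Mathlib
import Pool.Agent.H21.DiagDefs
import Pool.Agent.H21.Diag

namespace Pool.Agent.Results.MP_a5725c_al.NotComputable

open Pool.Agent.H21.Diag

theorem result : ¬ ∃ f : Rels × List ℕ → Option ℕ, Computable f ∧
    ∀ R w, Valid R w → ∀ n : ℕ, f (R, w) = some n ↔ abRank (D R w) = n := by
  rintro ⟨f, hf, h⟩
  obtain ⟨R, W, p, hW, hp, k⟩ := main
  refine hp (ComputablePred.computable_iff.2 ⟨fun n => !decide (f (R, W n) = some 0),
    Primrec.not.to_comp.comp (Primrec.eq.decide.to_comp.comp
      (hf.comp ((Computable.const R).pair hW)) (Computable.const (some 0))),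
    funext fun n => propext ?_⟩)
  simp only [h _ _ (k n).1 0, Nat.cast_zero, Bool.not_eq_eq_eq_not, Bool.not_true,
    decide_eq_false_iff_not]
  refine ⟨fun hn => ?_, fun hn => by_contra fun h' => ?_⟩
  · obtain ⟨χ, g, e⟩ := (k n).2.2 hn
    exact rank_ne χ g e
  · have := (k n).2.1 h'
    exact hn rank_zero

end Pool.Agent.Results.MP_a5725c_al.NotComputable
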